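import Pool.Agent.Lib_helper56.TA.Main
import Pool.Agent.Lib_helper64.TA.TreeDyn

/-!
# The turn-ascent theorem for right rotations in binary trees

The definitions (`Tree`, `RotAt`, `TwoTurn`, `Ascent`, `Run`) are in
`Pool/Agent/Lib_helper56/TA/Defs.lean`. The proof translates the trees into the dynamics of the left
ends of the left subtrees and runs two dyadic recursions, one for each type of 2-turns.
-/

namespace Pool.Agent.Results.MP_f79844_lc.TurnAscent

open Pool.Agent.TA

/-- Sundar's turn-ascent conjecture holds, with the constant `400`: if a sequence of right 2-turns
and right ascents starting from an arbitrary binary tree `T` contains exactly `r` right ascents and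
`N` right 2-turns, then `N ≤ 400 (n + r)`, where `n` is the number of nodes of `T`. -/
theorem result (T T' : Tree) (N r : ℕ) (h : Run T N r T') : N ≤ 400 * (T.size + r) := by
  obtain ⟨D, h1, h2⟩ := h.exists_dyn
  have h3 := D.main
  rw [h1, h2] at h3
  exact h3

end Pool.Agent.Results.MP_f79844_lc.TurnAscent
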